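import Pool.Agent.helper60.EPT.SpecS

set_option autoImplicit false

namespace Pool.Agent.EPT

open D

theorem CRR_tmr (z A : D) : (tmr z A).toList.length = (z.toList.length + 1) * (10 + 30 * A.toList.length) := by
  have h1 : ∀ (L : List D) (M : List D), (L.flatMap fun _ => M).length = L.length * M.length := by
    intro L M
    induction L with
    | nil => simp
    | cons a L ih =>
      rw [List.flatMap_cons, List.length_append, ih, List.length_cons]
      ring
  unfold tmr
  rw [toList_ofList, h1, List.length_append, h1, List.length_replicate, List.length_replicate]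
  have h2 : (cons nil z).toList.length = z.toList.length + 1 := by simp
  rw [h2]
  ring

theorem CRR_len (G : D) (a : ℕ) (Λ : Finset D) (hN : Nd G) (hG : Good a Λ (fs G)) :
    ∀ c ∈ G.toList, 1 ≤ c.toList.length ∧ c.toList.length ≤ 3 := by
  intro c hc
  have h1 : cs c ∈ fs G := by
    unfold fs
    rw [List.mem_toFinset]
    exact List.mem_map_of_mem hc
  have h2 := hG.card (cs c) h1
  have h3 : (cs c).card = c.toList.length := by
    unfold cs
    exact List.toFinset_card_of_nodup (hN.2 c hc)
  rw [h3] at h2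
  exact h2

theorem CRR (hSBD : SBD_stmt) (hDFR : DFR_stmt) (hDIN : DIN_stmt) (hDCV : DCV_stmt) (hDSZ : DSZ_stmt) : CRR_stmt := by
  intro z A B x y hW
  obtain ⟨hNd, hGood, hSat, hcard, hnv, hsz⟩ := hDIN z
  have ha : 1 ≤ A.toList.length := hW.1
  have hx : 0 < x := hW.2.2.1
  have hy : 0 < y := hW.2.2.2.1
  have hG0 := hGood A.toList.length ha
  have hfrk : ∀ n, frk (cons z (cons A B)) n =
      (frn A.toList.length B.toList.length)^[n] (cons (F0 z) nil) := fun n => rfl
  have hD := hDFR A.toList.length B.toList.length x y (lit z) (F0 z) hW hNd hG0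
  have hfrt : frt (cons z (cons A B)) = (frn A.toList.length B.toList.length)^[(tmr z A).toList.length] (cons (F0 z) nil) := rfl
  have hn : (1 + 3 * A.toList.length) * (lit z).card < (tmr z A).toList.length := by
    rw [CRR_tmr]
    have h1 : (lit z).card ≤ 6 * z.toList.length + 4 := by omega
    calc (1 + 3 * A.toList.length) * (lit z).card
        ≤ (1 + 3 * A.toList.length) * (6 * z.toList.length + 4) := Nat.mul_le_mul_left _ h1
      _ < (z.toList.length + 1) * (10 + 30 * A.toList.length) := by nlinarith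
  obtain ⟨hA1, hA2, hA3, hA4⟩ := hD (tmr z A).toList.length
  refine ⟨?_, ?_, ?_⟩
  · rw [hSat, hfrt]
    constructor
    · rintro ⟨v, hv⟩
      obtain ⟨G, hG, hs⟩ := (hA3 (LitT v)).mp hv
      refine ⟨G, hG, ?_⟩
      exact (hDCV G (CRR_len G _ _ (hA1 G hG).1 (hA1 G hG).2)).1.mpr ⟨v, hs⟩
    · rintro ⟨G, hG, hs⟩
      obtain ⟨v, hv⟩ := (hDCV G (CRR_len G _ _ (hA1 G hG).1 (hA1 G hG).2)).1.mp hs
      exact ⟨v, (hA3 (LitT v)).mpr ⟨G, hG, hv⟩⟩
  · rw [hfrt]
    intro G hG
    rw [(hDCV G (CRR_len G _ _ (hA1 G hG).1 (hA1 G hG).2)).2,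
      (hDSZ A.toList.length (z.size + 10) (lit z) G (hA1 G hG).1 (hA1 G hG).2 hsz).2]
    refine ((hSBD D _ _ _ (hA1 G hG).2).2.2 B.toList.length (hA4 hn G hG)).trans ?_
    exact Nat.mul_le_mul_left _ hcard
  · intro n
    rw [hfrk n]
    obtain ⟨hB1, hB2, hB3, hB4⟩ := hD n
    refine ⟨hB2.trans ?_, fun G hG => ?_⟩
    · refine Real.rpow_le_rpow_of_exponent_le (by norm_num) ?_
      unfold W
      have h1 : ((lit z).card : ℝ) ≤ 2 * nvar z + 4 := by exact_mod_cast hcard
      have h2 : (0 : ℝ) ≤ UU (fs (F0 z)) := Nat.cast_nonneg _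
      have h3 : (0 : ℝ) ≤ rho A.toList.length (fs (F0 z)) := Nat.cast_nonneg _
      have h4 : (0 : ℝ) ≤ A.toList.length := Nat.cast_nonneg _
      have h5 : (0 : ℝ) ≤ x + 3 * A.toList.length * y := by positivity
      calc x * (((lit z).card : ℝ) - UU (fs (F0 z))) +
            y * (3 * (A.toList.length : ℝ) * (lit z).card - rho A.toList.length (fs (F0 z)))
          ≤ x * ((lit z).card : ℝ) + y * (3 * (A.toList.length : ℝ) * (lit z).card) := by
            have h6 := mul_nonneg hx.le h2
            have h7 := mul_nonneg hy.le h3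
            nlinarith
        _ = (x + 3 * A.toList.length * y) * (lit z).card := by ring
        _ ≤ (x + 3 * A.toList.length * y) * (2 * nvar z + 4) := mul_le_mul_of_nonneg_left h1 h5
    · refine (hDSZ A.toList.length (z.size + 10) (lit z) G (hB1 G hG).1 (hB1 G hG).2 hsz).1.trans ?_
      have h1 : (lit z).card + 1 ≤ 2 * nvar z + 5 := by omega
      have h2 := Nat.pow_le_pow_left h1 3
      have h3 := Nat.mul_le_mul_right (3 * (z.size + 10) + 5) h2
      omega

end Pool.Agent.EPT
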