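import Pool.Agent.helper60.EPT.Spec

/-!
# EPT: row FLT, filtering a list in polynomial time
-/

set_option autoImplicit false

namespace Pool.Agent.EPT

open D

/-- The step of the fold. -/
def FLT_step (f : D → D) (s : D) : D :=
  if f s.snd = nil then s.fst else cons s.snd.fst s.fst

theorem FLT_fold (f : D → D) (e : D) (L A : List D) :
    L.foldl (fun acc h => FLT_step f (cons acc (cons h e))) (ofList A) =
      ofList ((L.filter fun a => f (cons a e) ≠ nil).reverse ++ A) := by
  induction L generalizing A with
  | nil => simp
  | cons h L ih =>
    rw [List.foldl_cons]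
    by_cases hh : f (cons h e) = nil
    · have h1 : FLT_step f (cons (ofList A) (cons h e)) = ofList A := by
        unfold FLT_step
        simp only [snd_cons, fst_cons]
        rw [if_pos hh]
      rw [h1, ih]
      simp [hh]
    · have h1 : FLT_step f (cons (ofList A) (cons h e)) = ofList (h :: A) := by
        unfold FLT_step
        simp only [snd_cons, fst_cons]
        rw [if_neg hh, ofList_cons]
      rw [h1, ih]
      simp [hh]

theorem FLT_size_filter (p : D → Bool) (L : List D) :
    (ofList (L.filter p)).size ≤ (ofList L).size := by
  induction L with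
  | nil => simp
  | cons h L ih =>
    cases hp : p h
    · rw [List.filter_cons_of_neg (by simp [hp]), ofList_cons, size_cons]
      omega
    · rw [List.filter_cons_of_pos hp, ofList_cons, ofList_cons, size_cons, size_cons]
      omega

theorem FLT_size_reverse (L : List D) : (ofList L.reverse).size = (ofList L).size := by
  rw [size_ofList, size_ofList, List.map_reverse, List.sum_reverse, List.length_reverse]

theorem FLT_size_prefix {L M : List D} (h : L <+: M) : (ofList L).size ≤ (ofList M).size := by
  obtain ⟨t, rfl⟩ := h
  rw [size_ofList, size_ofList, List.map_append, List.sum_append, List.length_append]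
  omega

theorem FLT (hC : Cal) (hREV : REV_stmt) : FLT_stmt := by
  intro f l e hf hl he
  have hstep : FP (FLT_step f) :=
    hC.cond (fun s => f s.snd) (fun s => cons s.snd.fst s.fst) (fun s => s.fst)
      (hC.comp f (fun s => s.snd) hf (hC.snd _ hC.id))
      (hC.cons _ _ (hC.fst _ (hC.snd _ hC.id)) (hC.fst _ hC.id)) (hC.fst _ hC.id)
  have hfold : FP fun x => (l x).toList.foldl
      (fun acc h => FLT_step f (cons acc (cons h (e x)))) nil := by
    refine hC.fold (FLT_step f) l e (fun _ => nil) hstep hl he (hC.const nil) ?_
    obtain ⟨c, hc⟩ := hC.bound l hl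
    refine ⟨c, fun x L hL => ?_⟩
    have h1 := FLT_fold f (e x) L []
    rw [ofList_nil, List.append_nil] at h1
    rw [h1, FLT_size_reverse]
    refine (FLT_size_filter _ L).trans ((FLT_size_prefix hL).trans ?_)
    rw [ofList_toList]
    exact hc x
  have hrev := hC.comp _ _ hREV.1 hfold
  have heq : (fun x => ofList ((l x).toList.filter fun a => f (cons a (e x)) ≠ nil)) =
      fun x => ofList ((l x).toList.foldl
        (fun acc h => FLT_step f (cons acc (cons h (e x)))) nil).toList.reverse := by
    funext x
    have h1 := FLT_fold f (e x) (l x).toList []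
    rw [ofList_nil, List.append_nil] at h1
    rw [h1, toList_ofList, List.reverse_reverse]
  rw [heq]
  exact hrev

end Pool.Agent.EPT
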